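import Pool.Agent.MP_bd94e8_al.H83A.Cor

/-!
Lengths and connections under unramified extension of the base.
-/

set_option autoImplicit false
set_option linter.unusedSectionVars false

namespace Pool.Agent.MP_bd94e8_al.H83A

open Module Function IsLocalRing TensorProduct H89

namespace BaseLA

theorem length_le_add {R X Y Z : Type} [Ring R] [AddCommGroup X] [Module R X] [AddCommGroup Y]
    [Module R Y] [AddCommGroup Z] [Module R Z] (f : X →ₗ[R] Y) (g : Y →ₗ[R] Z) (hg : Surjective g)
    (h : Exact f g) : length R Y ≤ length R X + length R Z := by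
  rw [length_eq_add_of_exact (LinearMap.range f).subtype g (Submodule.injective_subtype _) hg
    (by rw [LinearMap.exact_iff, Submodule.range_subtype]; exact LinearMap.exact_iff.1 h)]
  exact add_le_add_left (length_le_of_surjective _ f.surjective_rangeRestrict) _

variable {C C' : Type} [CommRing C] [IsArtinianRing C] [IsLocalRing C] [CommRing C']
  [IsLocalRing C'] [Algebra C C'] [Module.Finite C C'] [Algebra.FormallyUnramified C C']

theorem length_le {M : Type} [AddCommGroup M] [Module C M] (h : IsFiniteLength C M) :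
    length C' (C' ⊗[C] M) ≤ length C M := by
  have : IsLocalHom (algebraMap C C') := ⟨fun c hc => by
    by_contra hn
    exact ((max_nil (C := C) hn).map (algebraMap C C')).not_isUnit hc⟩
  induction h with
  | of_subsingleton => simp
  | @of_simple_quotient M _ _ N hs _ ih =>
    obtain ⟨m, hm, ⟨e⟩⟩ := isSimpleModule_iff_quot_maximal.mp hs
    obtain rfl := eq_maximalIdeal hm
    have h1 : length C' (C' ⊗[C] (M ⧸ N)) = 1 := by
      rw [(LinearEquiv.baseChange C C' _ _ e).length_eq,
        ← (Algebra.TensorProduct.quotIdealMapEquivTensorQuot C'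
          (maximalIdeal C)).toLinearEquiv.length_eq, Algebra.FormallyUnramified.map_maximalIdeal,
        length_eq_one_iff]
      exact isSimpleModule_iff_quot_maximal.2 ⟨_, maximalIdeal.isMaximal C', ⟨.refl _ _⟩⟩
    have ex : Exact (N.subtype.baseChange C') (N.mkQ.baseChange C') :=
      lTensor_exact C' (LinearMap.exact_subtype_mkQ N) N.mkQ_surjective
    have su : Surjective (N.mkQ.baseChange C') := LinearMap.lTensor_surjective C' N.mkQ_surjective
    rw [length_eq_add_of_exact N.subtype N.mkQ (Submodule.injective_subtype _)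
      N.mkQ_surjective (LinearMap.exact_subtype_mkQ N), length_eq_one C (M ⧸ N), ← h1]
    exact (length_le_add _ _ su ex).trans (add_le_add_left ih _)

theorem conn_bc {A : Type} [Ring A] [Algebra C A] (h : ConnA C A) : ConnA C (C' ⊗[C] A) := by
  intro N _ _ _ _ _ _ _ hl n
  let _ : Module A N := Module.compHom N
    (Algebra.TensorProduct.includeRight (R := C) (A := C') (B := A)).toRingHom
  have hs : ∀ (a : A) (x : N), a • x = ((1 : C') ⊗ₜ[C] a) • x := fun _ _ => rfl
  have : SMulCommClass A (H83.K C) N := ⟨fun a c x => by rw [hs, hs, smul_comm]⟩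
  have : IsScalarTower C A N := ⟨fun c a x => by rw [hs, hs, tmul_smul, smul_assoc]⟩
  obtain ⟨D, hD⟩ := h N hl n
  let φ : C' →+ C' →+ (N →+ N) := AddMonoidHom.mk' (fun a => AddMonoidHom.mk' (fun b =>
    AddMonoidHom.mk' (fun x => (a ⊗ₜ[C] (1 : A)) • D ((b ⊗ₜ[C] (1 : A)) • x))
      (fun x y => by simp)) (fun b b' => by ext x; simp [add_tmul, add_smul]))
    (fun a a' => by ext b x; simp [add_tmul, add_smul])
  have hφ : ∀ a b x, φ a b x = (a ⊗ₜ[C] (1 : A)) • D ((b ⊗ₜ[C] (1 : A)) • x) := fun _ _ _ => rfl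
  have hkk : ∀ (c : C) (a : C') (x : N),
      ((c • a) ⊗ₜ[C] (1 : A)) • x = c • (a ⊗ₜ[C] (1 : A)) • x := fun c a x => by
    rw [← smul_tmul', smul_assoc]
  have hcm : ∀ (a : C') (y : C' ⊗[C] A) (x : N),
      (a ⊗ₜ[C] (1 : A)) • y • x = y • (a ⊗ₜ[C] (1 : A)) • x := fun a y x => by
    rw [smul_smul, smul_smul]
    congr 1
    exact Algebra.commutes a y
  let Φ : C' ⊗[C] C' →+ (N →+ N) := TensorProduct.liftAddHom φ fun c a b => by
    ext x
    rw [hφ, hφ, hkk, hkk, D.map_smul_of_tower c, smul_comm c]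
  have hΦ : ∀ a b x, Φ (a ⊗ₜ b) x = (a ⊗ₜ[C] (1 : A)) • D ((b ⊗ₜ[C] (1 : A)) • x) :=
    fun _ _ _ => rfl
  have p1 : ∀ t (a : A) x, Φ t (a • x) = a • Φ t x := fun t a x => by
    induction t using TensorProduct.induction_on with
    | zero => simp
    | tmul b c => rw [hΦ, hΦ, hs, hcm c, ← hs, map_smul, hs, hcm b, hs]
    | add s t hs ht => simp [hs, ht]
  have p2 : ∀ t (c : C') x, Φ ((1 ⊗ₜ c) * t) x = Φ t ((c ⊗ₜ[C] (1 : A)) • x) := fun t c x => by
    induction t using TensorProduct.induction_on with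
    | zero => simp
    | tmul a b =>
      rw [Algebra.TensorProduct.tmul_mul_tmul, hΦ, hΦ, one_mul, smul_smul,
        Algebra.TensorProduct.tmul_mul_tmul, mul_comm b c, one_mul]
    | add s t hs ht => simp [mul_add, hs, ht]
  have p3 : ∀ t (c : C') x, Φ ((c ⊗ₜ 1) * t) x = (c ⊗ₜ[C] (1 : A)) • Φ t x := fun t c x => by
    induction t using TensorProduct.induction_on with
    | zero => simp
    | tmul a b =>
      rw [Algebra.TensorProduct.tmul_mul_tmul, hΦ, hΦ, one_mul, smul_smul,
        Algebra.TensorProduct.tmul_mul_tmul, one_mul]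
    | add s t hs ht => simp [mul_add, hs, ht]
  have p4 : ∀ t (c : H83.K C) x, Φ t (c • x) =
      (Algebra.TensorProduct.lmul' C t ⊗ₜ[C] (1 : A)) • H83.H.thK n c • x + c • Φ t x :=
    fun t c x => by
      induction t using TensorProduct.induction_on with
      | zero => simp
      | tmul a b =>
        rw [hΦ, hΦ, smul_comm _ c, hD, smul_add, Algebra.TensorProduct.lmul'_apply_tmul,
          smul_comm _ c, ← smul_comm (b ⊗ₜ[C] (1 : A)), smul_smul,
          Algebra.TensorProduct.tmul_mul_tmul, one_mul]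
      | add s t hs ht =>
        simp only [map_add, AddMonoidHom.add_apply, hs, ht, add_tmul, add_smul, smul_add]
        abel
  let T := Φ (Algebra.FormallyUnramified.elem C C')
  have q1 : ∀ (c : C') x, T ((c ⊗ₜ[C] (1 : A)) • x) = (c ⊗ₜ[C] (1 : A)) • T x := fun c x => by
    change Φ _ _ = _ • Φ _ _
    rw [← p2, Algebra.FormallyUnramified.one_tmul_mul_elem, p3]
  have hlin : ∀ (y : C' ⊗[C] A) x, T (y • x) = y • T x := fun y x => by
    induction y using TensorProduct.induction_on with
    | zero => simp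
    | tmul c a =>
      have e : c ⊗ₜ[C] a = (c ⊗ₜ[C] (1 : A)) * ((1 : C') ⊗ₜ[C] a) := by simp
      rw [e, mul_smul, mul_smul, q1, ← hs, ← hs]
      exact congrArg _ (p1 _ a x)
    | add s t hs ht => rw [add_smul, map_add, hs, ht, add_smul]
  refine ⟨{ toFun := T, map_add' := T.map_add, map_smul' := hlin }, fun c x => ?_⟩
  change Φ _ _ = _ + c • Φ _ _
  rw [p4, Algebra.FormallyUnramified.lmul_elem, ← Algebra.TensorProduct.one_def, one_smul]

end BaseLA

theorem baseL : SBaseL := by
  intro C C' A _ _ _ _ _ _ _ _ _ _ _ _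
  exact ⟨BaseLA.length_le (isFiniteLength_iff_isNoetherian_isArtinian.2
    ⟨inferInstance, inferInstance⟩), BaseLA.conn_bc⟩

end Pool.Agent.MP_bd94e8_al.H83A
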